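import Pool.Agent.H17.SD.Targets

/-!
Row GMX of the board sfg_modules: minors of the gradients.
-/

set_option autoImplicit false

namespace Pool.Agent.H1.SFG

open MvPolynomial SC Pool.Agent.H27.LV
open Pool.Agent.H92.SF Pool.Agent.H3.SF Pool.Agent.H17.SD

/-- the chain rule -/
theorem chain {k F σ : Type} [Field k] [Field F] [Algebra k F] [Fintype σ] (X : σ → F)
    (D : Derivation k F F) (p : MvPolynomial σ k) :
    D (aeval X p) = ∑ s, aeval X (pderiv s p) * D (X s) := by
  induction p using MvPolynomial.induction_on with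
  | C a =>
    rw [algHom_C, Derivation.map_algebraMap]
    symm
    refine Finset.sum_eq_zero fun s _ => ?_
    rw [pderiv_C, map_zero, zero_mul]
  | add p q hp hq =>
    rw [map_add, map_add, hp, hq, ← Finset.sum_add_distrib]
    refine Finset.sum_congr rfl fun s _ => ?_
    rw [map_add, map_add, add_mul]
  | mul_X p i hp =>
    rw [map_mul, aeval_X, Derivation.leibniz, hp, smul_eq_mul, smul_eq_mul, Finset.mul_sum]
    have h3 : ∀ s, aeval X (pderiv s (p * MvPolynomial.X i)) * D (X s) =
        aeval X p * (aeval X (pderiv s (MvPolynomial.X i : MvPolynomial σ k)) *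
          D (X s)) + X i * (aeval X (pderiv s p) * D (X s)) := by
      intro s
      rw [Derivation.leibniz, smul_eq_mul, smul_eq_mul, map_add, map_mul, map_mul, aeval_X]
      ring
    rw [Finset.sum_congr rfl fun s _ => h3 s, Finset.sum_add_distrib, ← Finset.mul_sum]
    congr 2
    rw [Finset.sum_eq_single i]
    · rw [pderiv_X_self, map_one, one_mul]
    · intro s _ hs
      rw [pderiv_X_of_ne hs.symm, map_zero, zero_mul, mul_zero]
    · intro h
      exact absurd (Finset.mem_univ _) h

theorem pf_GMX (h1 : T_DET) : T_GMX := by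
  classical
  intro k F σ _ _ _ _ _ X u dd c r hr hu hdu
  -- the pairing
  have hpair : ∀ (D : Derivation k F F) (j : Fin 3),
      ∑ s, algebraMap k F (c j s) * D (X s) = D (u j) := by
    intro D j
    rw [hu j, map_sum]
    refine Finset.sum_congr rfl fun s _ => ?_
    rw [Derivation.map_smul, Algebra.smul_def]
  have hind : LinearIndependent F (fun (l : Fin 3) (s : σ) => dd l (X s)) := by
    rw [Fintype.linearIndependent_iff]
    intro g hg j
    have h2 : ∑ s, algebraMap k F (c j s) * (∑ l, g l * dd l (X s)) = g j := by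
      have h3 : ∀ s, algebraMap k F (c j s) * (∑ l, g l * dd l (X s)) =
          ∑ l, g l * (algebraMap k F (c j s) * dd l (X s)) := by
        intro s
        rw [Finset.mul_sum]
        exact Finset.sum_congr rfl fun l _ => by ring
      rw [Finset.sum_congr rfl fun s _ => h3 s, Finset.sum_comm]
      have h4 : ∀ l, ∑ s, g l * (algebraMap k F (c j s) * dd l (X s)) =
          g l * (if l = j then 1 else 0) := by
        intro l
        rw [← Finset.mul_sum, hpair, hdu]
      rw [Finset.sum_congr rfl fun l _ => h4 l]
      simp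
    rw [← h2]
    refine Finset.sum_eq_zero fun s _ => ?_
    have h5 := congrFun hg s
    simp only [Finset.sum_apply, Pi.smul_apply, smul_eq_mul, Pi.zero_apply] at h5
    rw [h5, mul_zero]
  refine ⟨fun f hf q => ?_, fun f hf G q => ?_⟩
  · have h2 := h1 F σ r hr (fun i s => aeval X (pderiv s (f i))) (fun l s => dd l (X s)) hind
      (fun i l => by rw [← chain X (dd l) (f i), hf i, map_zero]) q
    rw [AlgHom.map_det, ← h2]
    rfl
  · -- the rows
    obtain ⟨M0, hM0⟩ : ∃ M0 : Fin (r + 1) → Fin (r + 1) → F, M0 = fun i j =>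
      aeval X (pderiv (q j) ((Fin.snoc f 0 : Fin (r + 1) → MvPolynomial σ k) i)) := ⟨_, rfl⟩
    obtain ⟨L, hL⟩ : ∃ L : (Fin (r + 1) → F) →ₗ[F] F, ∀ x, L x =
        Matrix.det (Function.update M0 (Fin.last r) x) := by
      refine ⟨(Matrix.detRowAlternating (R := F) (n := Fin (r + 1))).toMultilinearMap.toLinearMap
        M0 (Fin.last r), fun x => rfl⟩
    have hrow : ∀ g : MvPolynomial σ k, aeval X (Matrix.of fun i j => pderiv (q j)
        ((Fin.snoc f g : Fin (r + 1) → MvPolynomial σ k) i)).det =
        L (fun j => aeval X (pderiv (q j) g)) := by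
      intro g
      rw [hL, AlgHom.map_det]
      congr 1
      funext i j
      refine Fin.lastCases ?_ (fun i => ?_) i
      · rw [Function.update_self]
        change aeval X (pderiv (q j) ((Fin.snoc f g : Fin (r + 1) → MvPolynomial σ k)
          (Fin.last r))) = _
        rw [Fin.snoc_last]
      · rw [Function.update_of_ne (Fin.castSucc_lt_last i).ne, hM0]
        change aeval X (pderiv (q j) ((Fin.snoc f g : Fin (r + 1) → MvPolynomial σ k)
          i.castSucc)) = aeval X (pderiv (q j) ((Fin.snoc f 0 : Fin (r + 1) → MvPolynomial σ k)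
          i.castSucc))
        rw [Fin.snoc_castSucc, Fin.snoc_castSucc]
    have hlin : ∀ l s, pderiv s (∑ s, C (c l s) * MvPolynomial.X s : MvPolynomial σ k) =
        C (c l s) := by
      intro l s
      rw [map_sum, Finset.sum_eq_single s]
      · rw [pderiv_C_mul, pderiv_X_self, mul_one]
      · intro s' _ hs'
        rw [pderiv_C_mul, pderiv_X_of_ne hs', mul_zero]
      · intro h
        exact absurd (Finset.mem_univ _) h
    obtain ⟨w, hw⟩ : ∃ w : σ → F, w = fun s => aeval X (pderiv s G) -
      ∑ l, dd l (aeval X G) * algebraMap k F (c l s) := ⟨_, rfl⟩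
    have hwo : ∀ j, ∑ s, w s * dd j (X s) = 0 := by
      intro j
      have h2 : ∀ s, w s * dd j (X s) = aeval X (pderiv s G) * dd j (X s) -
          ∑ l, dd l (aeval X G) * (algebraMap k F (c l s) * dd j (X s)) := by
        intro s
        rw [hw]
        simp only [sub_mul, Finset.sum_mul, mul_assoc]
      rw [Finset.sum_congr rfl fun s _ => h2 s, Finset.sum_sub_distrib, ← chain X (dd j) G,
        Finset.sum_comm]
      have h3 : ∀ l, ∑ s, dd l (aeval X G) * (algebraMap k F (c l s) * dd j (X s)) =
          dd l (aeval X G) * (if j = l then 1 else 0) := by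
        intro l
        rw [← Finset.mul_sum, hpair, hdu]
      rw [Finset.sum_congr rfl fun l _ => h3 l]
      simp
    have hdet := h1 F σ r hr (fun i s => (Fin.snoc (fun i s => aeval X (pderiv s (f i))) w :
      Fin (r + 1) → σ → F) i s) (fun l s => dd l (X s)) hind
      (fun i l => by
        refine Fin.lastCases ?_ (fun i => ?_) i
        · rw [Fin.snoc_last]
          exact hwo l
        · rw [Fin.snoc_castSucc, ← chain X (dd l) (f i), hf i, map_zero]) q
    have hdet' : L (fun j => w (q j)) = 0 := by
      rw [hL, ← hdet]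
      congr 1
      funext i j
      refine Fin.lastCases ?_ (fun i => ?_) i
      · rw [Function.update_self]
        change _ = (Fin.snoc (fun i s => aeval X (pderiv s (f i))) w :
          Fin (r + 1) → σ → F) (Fin.last r) (q j)
        rw [Fin.snoc_last]
      · rw [Function.update_of_ne (Fin.castSucc_lt_last i).ne, hM0]
        change aeval X (pderiv (q j) ((Fin.snoc f 0 : Fin (r + 1) → MvPolynomial σ k)
          i.castSucc)) = (Fin.snoc (fun i s => aeval X (pderiv s (f i))) w :
          Fin (r + 1) → σ → F) i.castSucc (q j)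
        rw [Fin.snoc_castSucc, Fin.snoc_castSucc]
    rw [hrow G]
    have hw2 : (fun j => w (q j)) = (fun j => aeval X (pderiv (q j) G)) -
        ∑ l, dd l (aeval X G) • (fun j => aeval X (pderiv (q j)
          (∑ s, C (c l s) * MvPolynomial.X s : MvPolynomial σ k))) := by
      funext j
      simp only [hw, hlin, Pi.sub_apply, Finset.sum_apply, Pi.smul_apply, smul_eq_mul, algHom_C]
    rw [hw2, map_sub, map_sum, sub_eq_zero] at hdet'
    rw [hdet']
    refine Finset.sum_congr rfl fun l _ => ?_
    rw [map_smul, smul_eq_mul, hrow]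

end Pool.Agent.H1.SFG
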